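import Pool.Agent.Run7.h787.ST.Iface

/-!
# ST / CONJ: complex conjugations
-/

set_option autoImplicit false

open NumberField IsDedekindDomain

noncomputable section

namespace Pool.Agent.Run7.h354.ST

open Pool.Agent.Run7.h787.ST

/-- extension of an embedding -/
theorem exists_ext {K H : Type} [Field K] [Field H] [Algebra K H] [Algebra.IsAlgebraic K H]
    (σ : K →+* ℂ) : ∃ τ : H →+* ℂ, ∀ x : K, τ (algebraMap K H x) = σ x := by
  letI : Algebra K ℂ := σ.toAlgebra
  let φ : H →ₐ[K] ℂ := IsAlgClosed.lift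
  exact ⟨φ.toRingHom, fun x => φ.commutes x⟩

/-- two extensions of an embedding to a normal extension differ by an automorphism -/
theorem exists_aut {K H : Type} [Field K] [Field H] [Algebra K H] [Normal K H]
    (τ ψ : H →+* ℂ) (h : ∀ x : K, τ (algebraMap K H x) = ψ (algebraMap K H x)) :
    ∃ c : H ≃ₐ[K] H, ∀ x, τ (c x) = ψ x := by
  letI a1 : Algebra K ℂ := (τ.comp (algebraMap K H)).toAlgebra
  letI a2 : Algebra H ℂ := τ.toAlgebra
  haveI : IsScalarTower K H ℂ := IsScalarTower.of_algebraMap_eq fun x => rfl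
  let φ : H →ₐ[K] ℂ := { ψ with commutes' := fun x => (h x).symm }
  refine ⟨AlgHom.restrictNormal' φ H, fun x => ?_⟩
  exact AlgHom.restrictNormal_commutes φ H x

theorem t_CONJ : S_CONJ := by
  intro K _ _ _ w hw H hH
  haveI := hH.1
  haveI : IsAbelianGalois K H := hH.2
  constructor
  · obtain ⟨τ, hτ⟩ := exists_ext (H := H) (Complex.ofRealHom.comp w)
    obtain ⟨c, hc⟩ := exists_aut (K := K) τ ((starRingEnd ℂ).comp τ) (by
      intro x
      rw [RingHom.comp_apply, hτ]
      exact (Complex.conj_ofReal _).symm)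
    exact ⟨c, τ, fun x => hτ x, fun x => hc x⟩
  · rintro c ⟨τ, h1, h2⟩ ε hε
    have hex : ∃ x : K, τ (algebraMap K H x) ≠ ((algebraMap K ℝ x : ℝ) : ℂ) := by
      by_contra hcon
      push Not at hcon
      apply hw
      ext x
      have := hcon x
      rw [h1 x] at this
      exact_mod_cast this
    have h3 := hε τ hex
    apply τ.injective
    rw [map_mul, h2, map_one, Complex.mul_conj, Complex.normSq_eq_norm_sq, h3]
    norm_num

end Pool.Agent.Run7.h354.ST
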