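import Pool.Agent.Run7.h787.ST.Iface2

/-!
# ST / NORM: norms of prime ideals over different rational primes
-/

set_option autoImplicit false

open NumberField IsDedekindDomain

noncomputable section

namespace Pool.Agent.Run7.h354.ST

open Pool.Agent.Run7.h787.ST

/-- a prime ideal over a large rational prime -/
theorem exists_over {K : Type} [Field K] [NumberField K]
    (S : Finset (HeightOneSpectrum (𝓞 K))) (l : ℕ) (hl : l.Prime)
    (hbig : ∀ q ∈ S, Ideal.absNorm q.asIdeal < l) :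
    ∃ (q : HeightOneSpectrum (𝓞 K)) (f : ℕ), q ∉ S ∧ 1 ≤ f ∧ Ideal.absNorm q.asIdeal = l ^ f := by
  have hn : 0 < Module.finrank ℤ (𝓞 K) := by
    rw [RingOfIntegers.rank]
    exact Module.finrank_pos
  have hnorm : Ideal.absNorm (Ideal.span {(l : 𝓞 K)}) = l ^ Module.finrank ℤ (𝓞 K) :=
    Ideal.absNorm_span_natCast l
  have hne : Ideal.span {(l : 𝓞 K)} ≠ ⊤ := by
    intro h
    rw [h, Ideal.absNorm_top] at hnorm
    have : 1 < l ^ Module.finrank ℤ (𝓞 K) := Nat.one_lt_pow hn.ne' hl.one_lt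
    omega
  obtain ⟨Q, hQ, hle⟩ := Ideal.exists_le_maximal _ hne
  have hl0 : (l : 𝓞 K) ≠ 0 := by exact_mod_cast hl.ne_zero
  have hlQ : (l : 𝓞 K) ∈ Q := hle (Ideal.mem_span_singleton_self _)
  have hQ0 : Q ≠ ⊥ := by
    rintro rfl
    exact hl0 (Ideal.mem_bot.1 hlQ)
  let q : HeightOneSpectrum (𝓞 K) := ⟨Q, hQ.isPrime, hQ0⟩
  have hdvd : Ideal.absNorm Q ∣ l ^ Module.finrank ℤ (𝓞 K) := by
    rw [← hnorm]
    exact Ideal.absNorm_dvd_absNorm_of_le hle
  obtain ⟨f, -, hf⟩ := (Nat.dvd_prime_pow hl).1 hdvd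
  have hf1 : 1 ≤ f := by
    rcases Nat.eq_zero_or_pos f with h | h
    · exfalso
      rw [h, pow_zero, Ideal.absNorm_eq_one_iff] at hf
      exact hQ.ne_top hf
    · exact h
  refine ⟨q, f, ?_, hf1, hf⟩
  intro hqS
  have h1 := hbig q hqS
  have h2 : l ^ 1 ≤ l ^ f := Nat.pow_le_pow_right hl.pos hf1
  have h3 : Ideal.absNorm q.asIdeal = l ^ f := hf
  rw [h3] at h1
  rw [pow_one] at h2
  exact absurd h1 (not_lt.2 h2)

theorem cpow_one {N : ℕ} (hN : N ≠ 0) {t : ℝ}
    (h : (N : ℂ) ^ ((t : ℂ) * Complex.I) = 1) : ∃ k : ℤ, t * Real.log N = k * (2 * Real.pi) := by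
  rw [Complex.cpow_def_of_ne_zero (by exact_mod_cast hN), Complex.exp_eq_one_iff] at h
  obtain ⟨k, hk⟩ := h
  refine ⟨k, ?_⟩
  rw [← Complex.natCast_log] at hk
  have h1 : ((t * Real.log N : ℝ) : ℂ) * Complex.I = ((k * (2 * Real.pi) : ℝ) : ℂ) * Complex.I := by
    rw [Complex.ofReal_mul, Complex.ofReal_mul (k : ℝ), Complex.ofReal_mul 2,
      Complex.ofReal_intCast, Complex.ofReal_ofNat]
    linear_combination hk
  have h2 := mul_right_cancel₀ Complex.I_ne_zero h1
  exact_mod_cast h2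

theorem t_NORM : S_NORM := by
  intro K _ _ S t ht
  by_contra hcon
  push Not at hcon
  set B : ℕ := (∑ q ∈ S, Ideal.absNorm q.asIdeal) + 1 with hB
  have hle : ∀ q ∈ S, Ideal.absNorm q.asIdeal < B := by
    intro q hq
    have : Ideal.absNorm q.asIdeal ≤ ∑ q ∈ S, Ideal.absNorm q.asIdeal :=
      Finset.single_le_sum (f := fun q : HeightOneSpectrum (𝓞 K) => Ideal.absNorm q.asIdeal)
        (fun _ _ => Nat.zero_le _) hq
    omega
  obtain ⟨l, hl1, hl⟩ := Nat.exists_infinite_primes B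
  obtain ⟨l', hl1', hl'⟩ := Nat.exists_infinite_primes (l + 1)
  obtain ⟨q, f, hq, hf, hqf⟩ := exists_over S l hl (fun q hq => by have := hle q hq; omega)
  obtain ⟨q', f', hq', hf', hqf'⟩ := exists_over S l' hl' (fun q hq => by have := hle q hq; omega)
  have h1 := hcon q hq
  have h2 := hcon q' hq'
  rw [hqf] at h1
  rw [hqf'] at h2
  obtain ⟨k, hk⟩ := cpow_one (pow_ne_zero _ hl.ne_zero) h1
  obtain ⟨k', hk'⟩ := cpow_one (pow_ne_zero _ hl'.ne_zero) h2
  push_cast at hk hk'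
  rw [Real.log_pow] at hk hk'
  have hlog : 0 < Real.log l := Real.log_pos (by exact_mod_cast hl.one_lt)
  have hlog' : 0 < Real.log l' := Real.log_pos (by exact_mod_cast hl'.one_lt)
  have hfR : (0 : ℝ) < f := by exact_mod_cast hf
  have hfR' : (0 : ℝ) < f' := by exact_mod_cast hf'
  have hpi := Real.pi_pos
  have hk0 : k ≠ 0 := by
    rintro rfl
    have : t * (f * Real.log l) = 0 := by rw [hk]; simp
    rcases mul_eq_zero.1 this with h | h
    · exact ht h
    · exact (mul_pos hfR hlog).ne' h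
  have hk0' : k' ≠ 0 := by
    rintro rfl
    have : t * (f' * Real.log l') = 0 := by rw [hk']; simp
    rcases mul_eq_zero.1 this with h | h
    · exact ht h
    · exact (mul_pos hfR' hlog').ne' h
  -- t f log l k' = t f' log l' k
  have e1 : t * ((f * Real.log l) * k') = t * ((f' * Real.log l') * k) := by
    calc t * ((f * Real.log l) * k') = (t * (f * Real.log l)) * k' := by ring
      _ = (k * (2 * Real.pi)) * k' := by rw [hk]
      _ = (k' * (2 * Real.pi)) * k := by ring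
      _ = (t * (f' * Real.log l')) * k := by rw [hk']
      _ = _ := by ring
  have e2 := mul_left_cancel₀ ht e1
  have e3 : (f * Real.log l) * |(k' : ℝ)| = (f' * Real.log l') * |(k : ℝ)| := by
    have := congrArg abs e2
    rw [abs_mul (f * Real.log l), abs_mul (f' * Real.log l'), abs_of_pos (mul_pos hfR hlog),
      abs_of_pos (mul_pos hfR' hlog')] at this
    exact this
  have e4 : Real.log ((l : ℝ) ^ (f * k'.natAbs)) = Real.log ((l' : ℝ) ^ (f' * k.natAbs)) := by
    rw [Real.log_pow, Real.log_pow]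
    push_cast
    rw [← Int.cast_abs, ← Int.cast_abs] at e3
    have a1 : ((k'.natAbs : ℕ) : ℝ) = ((|k'| : ℤ) : ℝ) := by
      rw [← Int.natCast_natAbs]
      simp
    have a2 : ((k.natAbs : ℕ) : ℝ) = ((|k| : ℤ) : ℝ) := by
      rw [← Int.natCast_natAbs]
      simp
    push_cast at a1 a2 e3 ⊢
    rw [a1, a2]
    linarith
  have e5 : (l : ℝ) ^ (f * k'.natAbs) = (l' : ℝ) ^ (f' * k.natAbs) := by
    refine Real.log_injOn_pos ?_ ?_ e4
    · have h : (0 : ℝ) < l := by exact_mod_cast hl.pos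
      exact Set.mem_Ioi.2 (pow_pos h _)
    · have h : (0 : ℝ) < l' := by exact_mod_cast hl'.pos
      exact Set.mem_Ioi.2 (pow_pos h _)
  have e6 : l ^ (f * k'.natAbs) = l' ^ (f' * k.natAbs) := by exact_mod_cast e5
  have hpos : f * k'.natAbs ≠ 0 := by
    have : 0 < k'.natAbs := Int.natAbs_pos.2 hk0'
    positivity
  have hdvd : l ∣ l' ^ (f' * k.natAbs) := by
    rw [← e6]
    exact dvd_pow_self l hpos
  have h3 := (Nat.prime_dvd_prime_iff_eq hl hl').1 (hl.dvd_of_dvd_pow hdvd)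
  omega

end Pool.Agent.Run7.h354.ST
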