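import Pool.Agent.Run7.h787.ST.Iface2
import Pool.Agent.Run7.h547.ST.LREL

/-!
# ST / PREL: compatibility of the L-functions for two sets of primes
-/

set_option autoImplicit false

open NumberField IsDedekindDomain

noncomputable section

namespace Pool.Agent.Run7.h354.ST

open Pool.Agent.Run7.h787.ST Pool.Agent.Run7.h547.ST

open Classical in
theorem euler_prel (hU : S_UNIQ) (K : Type) [Field K] [NumberField K] [Algebra K ℝ]
    (H : IntermediateField K ℝ) (S : Finset (HeightOneSpectrum (𝓞 K)))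
    (q p : HeightOneSpectrum (𝓞 K)) (hq : q ∉ S) (hp : p ∉ S) (hqp : q ≠ p)
    (D₁ : LData H (insert q S)) (D₂ : LData H (insert p S)) (hab : IsAb H)
    (hun : ∀ p, p ∉ S → Unram H p) (χ : Gal H →* ℂˣ) (s : ℂ) (hs : 1 < s.re) :
    D₁.L χ s * (1 - (χ (D₁.frob p) : ℂ) * (Ideal.absNorm p.asIdeal : ℂ) ^ (-s)) =
      D₂.L χ s * (1 - (χ (D₂.frob q) : ℂ) * (Ideal.absNorm q.asIdeal : ℂ) ^ (-s)) := by
  have : FiniteDimensional K H := hab.1
  have : Finite (Gal H) := inferInstance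
  set f₁ : HeightOneSpectrum (𝓞 K) → ℂ := fun x =>
    (1 - (χ (D₁.frob x) : ℂ) * (Ideal.absNorm x.asIdeal : ℂ) ^ (-s))⁻¹ with hf₁
  set f₂ : HeightOneSpectrum (𝓞 K) → ℂ := fun x =>
    (1 - (χ (D₂.frob x) : ℂ) * (Ideal.absNorm x.asIdeal : ℂ) ^ (-s))⁻¹ with hf₂
  set F : HeightOneSpectrum (𝓞 K) → ℂ := fun x => if x = q then f₂ q else f₁ x with hF
  have hfr : ∀ x, x ∉ S → x ≠ q → x ≠ p → f₁ x = f₂ x := by
    intro x hxS hxq hxp
    have e : D₁.frob x = D₂.frob x := hU K H x _ _ (hun x hxS)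
      (D₁.isFrob x (by simp [hxS, hxq])) (D₂.isFrob x (by simp [hxS, hxp]))
    simp only [hf₁, hf₂, e]
  have h1 : HasProd (F ∘ ((↑) : {x : HeightOneSpectrum (𝓞 K) | x ∉ insert q S} →
      HeightOneSpectrum (𝓞 K))) (D₁.L χ s) := by
    have h := D₁.euler χ s hs
    have e : (fun x : {x : HeightOneSpectrum (𝓞 K) // x ∉ insert q S} =>
        (1 - (χ (D₁.frob x) : ℂ) *
        (Ideal.absNorm (x : HeightOneSpectrum (𝓞 K)).asIdeal : ℂ) ^ (-s))⁻¹) = fun x => F x.1 := by
      funext x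
      have hxq : (x : HeightOneSpectrum (𝓞 K)) ≠ q := by
        intro h
        exact x.2 (by rw [h]; exact Finset.mem_insert_self _ _)
      simp only [hF, if_neg hxq, hf₁]
    rw [e] at h
    exact h
  have h1' : HasProd (F ∘ ((↑) : ({q} : Set (HeightOneSpectrum (𝓞 K))) →
      HeightOneSpectrum (𝓞 K))) (F q) := hasProd_unique _
  have hd1 : Disjoint {x : HeightOneSpectrum (𝓞 K) | x ∉ insert q S}
      ({q} : Set (HeightOneSpectrum (𝓞 K))) := by
    rw [Set.disjoint_singleton_right]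
    intro h
    exact h (Finset.mem_insert_self _ _)
  have hset : ∀ y : HeightOneSpectrum (𝓞 K), y ∉ S →
      {x : HeightOneSpectrum (𝓞 K) | x ∉ insert y S} ∪ ({y} : Set (HeightOneSpectrum (𝓞 K))) =
      {x | x ∉ S} := by
    intro y hy
    ext x
    simp only [Set.mem_union, Set.mem_ofPred_eq, Finset.mem_insert, not_or, Set.mem_singleton_iff]
    constructor
    · rintro (⟨-, h⟩ | rfl)
      · exact h
      · exact hy
    · intro h
      by_cases hxy : x = y
      · exact Or.inr hxy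
      · exact Or.inl ⟨hxy, h⟩
  have h2 : HasProd (F ∘ ((↑) : {x : HeightOneSpectrum (𝓞 K) | x ∉ insert p S} →
      HeightOneSpectrum (𝓞 K))) (D₂.L χ s) := by
    have h := D₂.euler χ s hs
    have e : (fun x : {x : HeightOneSpectrum (𝓞 K) // x ∉ insert p S} =>
        (1 - (χ (D₂.frob x) : ℂ) *
        (Ideal.absNorm (x : HeightOneSpectrum (𝓞 K)).asIdeal : ℂ) ^ (-s))⁻¹) = fun x => F x.1 := by
      funext x
      obtain ⟨x, hx⟩ := x
      have hxp : x ≠ p := by
        intro h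
        exact hx (by rw [h]; exact Finset.mem_insert_self _ _)
      have hxS : x ∉ S := fun h => hx (Finset.mem_insert_of_mem h)
      show f₂ x = F x
      by_cases hxq : x = q
      · rw [hxq]
        exact (if_pos rfl).symm
      · simp only [hF, if_neg hxq]
        exact (hfr x hxS hxq hxp).symm
    rw [e] at h
    exact h
  have h2' : HasProd (F ∘ ((↑) : ({p} : Set (HeightOneSpectrum (𝓞 K))) →
      HeightOneSpectrum (𝓞 K))) (F p) := hasProd_unique _
  have hd2 : Disjoint {x : HeightOneSpectrum (𝓞 K) | x ∉ insert p S}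
      ({p} : Set (HeightOneSpectrum (𝓞 K))) := by
    rw [Set.disjoint_singleton_right]
    intro h
    exact h (Finset.mem_insert_self _ _)
  have h3 := h1.mul_disjoint hd1 h1'
  have h4 := h2.mul_disjoint hd2 h2'
  rw [hset q hq] at h3
  rw [hset p hp] at h4
  have h5 : D₁.L χ s * F q = D₂.L χ s * F p := h3.unique h4
  have e1 : F q = f₂ q := if_pos rfl
  have e2 : F p = f₁ p := if_neg (Ne.symm hqp)
  rw [e1, e2] at h5
  have n1 := factor_ne_zero p (χ (D₁.frob p) : ℂ) (norm_char χ _) s hs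
  have n2 := factor_ne_zero q (χ (D₂.frob q) : ℂ) (norm_char χ _) s hs
  simp only [hf₁, hf₂] at h5
  field_simp at h5
  linear_combination h5

open Classical in
theorem t_PREL : S_UNIQ → S_PREL := by
  intro hU K _ _ _ H S q p hq hp hqp D₁ D₂ hab hun χ s hs
  have hN : ∀ q : HeightOneSpectrum (𝓞 K), (Ideal.absNorm q.asIdeal : ℂ) ≠ 0 := by
    intro q
    have := two_le_absNorm q
    exact_mod_cast (by omega : Ideal.absNorm q.asIdeal ≠ 0)
  have dE : ∀ (q : HeightOneSpectrum (𝓞 K)) (c : ℂ),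
      Differentiable ℂ (fun s : ℂ => 1 - c * (Ideal.absNorm q.asIdeal : ℂ) ^ (-s)) := by
    intro q c s
    refine (differentiableAt_const _).sub ((differentiableAt_const _).mul ?_)
    exact (differentiableAt_id.neg).const_cpow (Or.inl (hN q))
  have ho : IsOpen ({1}ᶜ : Set ℂ) := isOpen_compl_singleton
  have a1 : AnalyticOnNhd ℂ (fun s => D₁.L χ s *
      (1 - (χ (D₁.frob p) : ℂ) * (Ideal.absNorm p.asIdeal : ℂ) ^ (-s))) {1}ᶜ :=
    ((D₁.analytic χ).mul (dE p _).differentiableOn).analyticOnNhd ho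
  have a2 : AnalyticOnNhd ℂ (fun s => D₂.L χ s *
      (1 - (χ (D₂.frob q) : ℂ) * (Ideal.absNorm q.asIdeal : ℂ) ^ (-s))) {1}ᶜ :=
    ((D₂.analytic χ).mul (dE q _).differentiableOn).analyticOnNhd ho
  have hpre : IsPreconnected ({1}ᶜ : Set ℂ) := by
    apply (isConnected_compl_singleton_of_one_lt_rank _ _).isPreconnected
    rw [Complex.rank_real_complex]
    exact Cardinal.one_lt_two
  have hev : (fun s => D₁.L χ s *
      (1 - (χ (D₁.frob p) : ℂ) * (Ideal.absNorm p.asIdeal : ℂ) ^ (-s))) =ᶠ[nhds (2 : ℂ)]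
      (fun s => D₂.L χ s *
      (1 - (χ (D₂.frob q) : ℂ) * (Ideal.absNorm q.asIdeal : ℂ) ^ (-s))) := by
    have : {s : ℂ | 1 < s.re} ∈ nhds (2 : ℂ) :=
      (isOpen_lt continuous_const Complex.continuous_re).mem_nhds (by norm_num)
    filter_upwards [this] with s hs
    exact euler_prel hU K H S q p hq hp hqp D₁ D₂ hab hun χ s hs
  exact a1.eqOn_of_preconnected_of_eventuallyEq a2 hpre
    (by norm_num : (2 : ℂ) ∈ ({1}ᶜ : Set ℂ)) hev hs

end Pool.Agent.Run7.h354.ST
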