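import Pool.Agent.Run7.h787.ST.Iface

/-!
# ST / VAL: orders at an unramified prime
-/

set_option autoImplicit false

open NumberField IsDedekindDomain

noncomputable section

namespace Pool.Agent.Run7.h354.ST

open Pool.Agent.Run7.h787.ST

/-- If the inertia group is trivial then `p` is not in the square of the prime above. -/
theorem not_le_sq {K H : Type} [Field K] [NumberField K] [Field H] [NumberField H] [Algebra K H]
    [IsGalois K H] (p : HeightOneSpectrum (𝓞 K)) (Q : Ideal (𝓞 H)) [hQ : Q.IsPrime]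
    [hQp : Q.LiesOver p.asIdeal]
    (hin : ∀ g : H ≃ₐ[K] H, (∀ x : 𝓞 H, g • x - x ∈ Q) → g = 1) :
    ¬ p.asIdeal.map (algebraMap (𝓞 K) (𝓞 H)) ≤ Q ^ 2 := by
  have hp : p.asIdeal.IsMaximal := p.isMaximal
  have hfin : Finite (𝓞 K ⧸ p.asIdeal) := Ring.HasFiniteQuotients.finiteQuotient p.ne_bot
  have h1 : Nat.card (Q.inertia (H ≃ₐ[K] H)) = Ideal.ramificationIdxIn p.asIdeal (𝓞 H) :=
    Ideal.card_inertia_eq_ramificationIdxIn p.asIdeal Q
  have h2 : Q.inertia (H ≃ₐ[K] H) = ⊥ := by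
    rw [Subgroup.eq_bot_iff_forall]
    intro g hg
    exact hin g hg
  have h3 : Ideal.ramificationIdxIn p.asIdeal (𝓞 H) = Q.ramificationIdx (𝓞 K) :=
    Ideal.ramificationIdxIn_eq_ramificationIdx p.asIdeal Q (H ≃ₐ[K] H)
  have h4 := Ideal.ramificationIdx'_eq_ramificationIdx p.asIdeal Q p.ne_bot
  rw [h2, Subgroup.card_bot, h3, ← h4] at h1
  intro h5
  have h6 : p.asIdeal.map (algebraMap (𝓞 K) (𝓞 H)) ≤ Q := Ideal.map_le_iff_le_comap.2
    ((Ideal.liesOver_iff _ _).1 hQp).le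
  exact (Ideal.ramificationIdx'_ne_one_iff h6).2 h5 h1.symm

/-- `p` is generated by `π` modulo `p ^ 2`. -/
theorem le_sup {K : Type} [Field K] [NumberField K] (p : HeightOneSpectrum (𝓞 K)) (π : 𝓞 K)
    (h1 : π ∈ p.asIdeal) (h2 : π ∉ p.asIdeal ^ 2) :
    p.asIdeal ≤ Ideal.span {π} ⊔ p.asIdeal ^ 2 := by
  have hprime : Prime p.asIdeal := Ideal.prime_of_isPrime p.ne_bot p.isPrime
  have hdvd : Ideal.span {π} ⊔ p.asIdeal ^ 2 ∣ p.asIdeal ^ 2 := Ideal.dvd_iff_le.2 le_sup_right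
  obtain ⟨i, hi, hass⟩ := (dvd_prime_pow hprime 2).1 hdvd
  have heq : Ideal.span {π} ⊔ p.asIdeal ^ 2 = p.asIdeal ^ i := associated_iff_eq.1 hass
  have hle : Ideal.span {π} ⊔ p.asIdeal ^ 2 ≤ p.asIdeal :=
    sup_le ((Ideal.span_singleton_le_iff_mem _).2 h1) (Ideal.pow_le_self (by norm_num))
  interval_cases i
  · rw [pow_zero, Ideal.one_eq_top] at heq
    rw [heq, top_le_iff] at hle
    exact absurd hle p.isPrime.ne_top
  · rw [heq, pow_one]
  · exact absurd (heq ▸ (Ideal.mem_sup_left (Ideal.mem_span_singleton_self π))) h2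

/-- the order argument -/
theorem order_contra {K H : Type} [Field K] [NumberField K] [Field H] [NumberField H] [Algebra K H]
    [IsGalois K H] (p : HeightOneSpectrum (𝓞 K)) (Q : Ideal (𝓞 H)) [hQ : Q.IsPrime]
    [hQp : Q.LiesOver p.asIdeal]
    (hin : ∀ g : H ≃ₐ[K] H, (∀ x : 𝓞 H, g • x - x ∈ Q) → g = 1)
    (π t : 𝓞 K) (hπ1 : π ∈ p.asIdeal) (hπ2 : π ∉ p.asIdeal ^ 2) (ht : t ∉ p.asIdeal)
    (a b u : 𝓞 H) (ha : a ≠ 0) (hb : b ≠ 0) (hu : IsUnit u)
    (h : algebraMap (𝓞 K) (𝓞 H) π * a ^ 2 = u * (algebraMap (𝓞 K) (𝓞 H) t * b) ^ 2) : False := by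
  have hunder : ∀ x : 𝓞 K, algebraMap (𝓞 K) (𝓞 H) x ∈ Q ↔ x ∈ p.asIdeal := by
    intro x
    have := (Ideal.liesOver_iff _ _).1 hQp
    rw [this]
    rfl
  have hQ0 : Q ≠ ⊥ := by
    rintro rfl
    have h1 := (hunder π).2 hπ1
    rw [Ideal.mem_bot] at h1
    have h2 : π = 0 := (FaithfulSMul.algebraMap_injective (𝓞 K) (𝓞 H)) (by rw [h1, map_zero])
    exact hπ2 (h2 ▸ Ideal.zero_mem _)
  have hprime : Prime Q := Ideal.prime_of_isPrime hQ0 hQ
  have hπQ : algebraMap (𝓞 K) (𝓞 H) π ∈ Q := (hunder π).2 hπ1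
  have hπQ2 : algebraMap (𝓞 K) (𝓞 H) π ∉ Q ^ 2 := by
    intro h1
    apply not_le_sq p Q hin
    have h2 := Ideal.map_mono (f := algebraMap (𝓞 K) (𝓞 H)) (le_sup p π hπ1 hπ2)
    refine le_trans h2 ?_
    rw [Ideal.map_sup, Ideal.map_span, Set.image_singleton, Ideal.map_pow]
    refine sup_le ((Ideal.span_singleton_le_iff_mem _).2 h1) (Ideal.pow_right_mono ?_ 2)
    exact Ideal.map_le_iff_le_comap.2 ((Ideal.liesOver_iff _ _).1 hQp).le
  have htQ : algebraMap (𝓞 K) (𝓞 H) t ∉ Q := fun h1 => ht ((hunder t).1 h1)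
  -- multiplicities
  have hfin : ∀ x : 𝓞 H, x ≠ 0 → FiniteMultiplicity Q (Ideal.span {x}) := fun x hx =>
    FiniteMultiplicity.of_prime_left hprime (by rwa [Ne, Ideal.zero_eq_bot, Ideal.span_singleton_eq_bot])
  have hsp : ∀ x y : 𝓞 H, Ideal.span {x * y} = Ideal.span {x} * Ideal.span {y} := fun x y =>
    (Ideal.span_singleton_mul_span_singleton x y).symm
  have hne : ∀ x : 𝓞 H, x ≠ 0 → Ideal.span {x} ≠ 0 := fun x hx => by
    rwa [Ne, Ideal.zero_eq_bot, Ideal.span_singleton_eq_bot]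
  have hmul : ∀ x y : 𝓞 H, x ≠ 0 → y ≠ 0 → multiplicity Q (Ideal.span {x * y}) =
      multiplicity Q (Ideal.span {x}) + multiplicity Q (Ideal.span {y}) := by
    intro x y hx hy
    rw [hsp]
    refine multiplicity_mul hprime ?_
    rw [← hsp]
    exact hfin _ (mul_ne_zero hx hy)
  have hunit : ∀ x : 𝓞 H, x ∉ Q → multiplicity Q (Ideal.span {x}) = 0 := by
    intro x hx
    rw [multiplicity_eq_zero]
    intro h1
    exact hx (Ideal.dvd_span_singleton.1 h1)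
  have hπ0 : algebraMap (𝓞 K) (𝓞 H) π ≠ 0 := fun h1 => hπQ2 (h1 ▸ Ideal.zero_mem _)
  have ht0 : algebraMap (𝓞 K) (𝓞 H) t ≠ 0 := fun h1 => htQ (h1 ▸ Ideal.zero_mem _)
  have hm1 : multiplicity Q (Ideal.span {algebraMap (𝓞 K) (𝓞 H) π}) = 1 := by
    refine multiplicity_eq_of_dvd_of_not_dvd ?_ ?_
    · rw [pow_one]
      exact Ideal.dvd_span_singleton.2 hπQ
    · intro h1
      exact hπQ2 (Ideal.dvd_span_singleton.1 h1)
  have hu0 : u ≠ 0 := hu.ne_zero
  have huQ : u ∉ Q := fun h1 => hQ.ne_top (Ideal.eq_top_of_isUnit_mem _ h1 hu)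
  have e1 := congrArg (fun x : 𝓞 H => multiplicity Q (Ideal.span {x})) h
  simp only [sq] at e1
  rw [hmul _ _ hπ0 (mul_ne_zero ha ha), hmul _ _ ha ha, hm1,
    hmul _ _ hu0 (mul_ne_zero (mul_ne_zero ht0 hb) (mul_ne_zero ht0 hb)),
    hmul _ _ (mul_ne_zero ht0 hb) (mul_ne_zero ht0 hb), hunit u huQ] at e1
  omega

theorem t_VAL : S_GOUP → S_VAL := by
  intro hG K _ _ _ H α p hH hun hodd y hy
  haveI := hH.1
  haveI : IsAbelianGalois K H := hH.2
  haveI : NumberField H := NumberField.of_module_finite K H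
  obtain ⟨P, hP, hPp⟩ := (hG K).2 p
  obtain ⟨Pint, P0, Padd, Pmul, P1, Pprime⟩ := hP
  have hint : ∀ x : 𝓞 H, IsIntegral ℤ (((x : H)) : ℝ) := by
    intro x
    have h1 : IsIntegral ℤ (x : H) := x.2
    exact h1.map (H.val.toRingHom.toIntAlgHom)
  let Q : Ideal (𝓞 H) :=
    { carrier := {x | (((x : H)) : ℝ) ∈ P}
      zero_mem' := by
        show (((0 : 𝓞 H) : H) : ℝ) ∈ P
        simpa using P0
      add_mem' := by
        intro a b ha hb
        show (((a + b : 𝓞 H) : H) : ℝ) ∈ P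
        have := Padd _ ha _ hb
        simpa using this
      smul_mem' := by
        intro c x hx
        show (((c * x : 𝓞 H) : H) : ℝ) ∈ P
        have := Pmul _ _ (hint c) hx
        simpa using this }
  have hQmem : ∀ x : 𝓞 H, x ∈ Q ↔ (((x : H)) : ℝ) ∈ P := fun x => Iff.rfl
  haveI hQ : Q.IsPrime := by
    refine ⟨?_, ?_⟩
    · rw [Ne, Ideal.eq_top_iff_one, hQmem]
      simpa using P1
    · intro a b hab
      rw [hQmem] at hab ⊢
      rw [hQmem]
      refine Pprime _ _ (hint a) (hint b) ?_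
      simpa using hab
  have hcoe : ∀ x : 𝓞 K, (((algebraMap (𝓞 K) (𝓞 H) x : 𝓞 H) : H) : ℝ) =
      algebraMap K ℝ (x : K) := fun x => rfl
  haveI hQp : Q.LiesOver p.asIdeal := by
    rw [Ideal.liesOver_iff]
    ext x
    rw [Ideal.under, Ideal.mem_comap, hQmem, hcoe, hPp]
  obtain ⟨π, t, c, hπ1, hπ2, ht, hc, heq⟩ := hodd
  -- the unit
  obtain ⟨hy0, hyi, hyi'⟩ := hy
  set uH : H := algebraMap K H (α : K) * y ^ 2 with huH
  have huR : (uH : ℝ) = algebraMap K ℝ (α : K) * (y : ℝ) ^ 2 := by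
    rw [huH]
    push_cast
    rfl
  have hval : Function.Injective (H.val : H → ℝ) := Subtype.val_injective
  have hui : IsIntegral ℤ uH := by
    have h1 : IsIntegral ℤ (H.val.toRingHom.toIntAlgHom uH) := by
      show IsIntegral ℤ (uH : ℝ)
      rw [huR]; exact hyi
    exact (isIntegral_algHom_iff H.val.toRingHom.toIntAlgHom hval).1 h1
  have hui' : IsIntegral ℤ uH⁻¹ := by
    have h1 : IsIntegral ℤ (H.val.toRingHom.toIntAlgHom uH⁻¹) := by
      show IsIntegral ℤ ((uH⁻¹ : H) : ℝ)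
      have : ((uH⁻¹ : H) : ℝ) = (uH : ℝ)⁻¹ := by push_cast; rfl
      rw [this, huR]; exact hyi'
    exact (isIntegral_algHom_iff H.val.toRingHom.toIntAlgHom hval).1 h1
  have hu0 : uH ≠ 0 := by
    intro h1
    apply hy0
    rw [← huR, h1]
    rfl
  let u : 𝓞 H := ⟨uH, hui⟩
  have huu : IsUnit u := by
    refine IsUnit.of_mul_eq_one ⟨uH⁻¹, hui'⟩ ?_
    apply NumberField.RingOfIntegers.ext
    exact mul_inv_cancel₀ hu0
  have hyne : y ≠ 0 := by
    rintro rfl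
    apply hu0
    rw [huH]
    simp
  -- y = y1 / y2
  obtain ⟨y1, y2, hy2, hyeq⟩ := IsFractionRing.div_surjective (A := 𝓞 H) y
  have hy2' : y2 ≠ 0 := nonZeroDivisors.ne_zero hy2
  have hy1' : y1 ≠ 0 := by
    rintro rfl
    apply hyne
    rw [← hyeq]
    simp
  have hmain : algebraMap (𝓞 K) (𝓞 H) π * (algebraMap (𝓞 K) (𝓞 H) c * y1) ^ 2 =
      u * (algebraMap (𝓞 K) (𝓞 H) t * y2) ^ 2 := by
    apply NumberField.RingOfIntegers.ext
    have h1 : (α : K) * (t : K) ^ 2 = (π : K) * (c : K) ^ 2 := by exact_mod_cast congrArg (fun x : 𝓞 K => (x : K)) heq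
    have h2 : algebraMap K H (α : K) * algebraMap K H (t : K) ^ 2 =
        algebraMap K H (π : K) * algebraMap K H (c : K) ^ 2 := by
      rw [← map_pow, ← map_mul, h1, map_mul, map_pow]
    have h3 : y * (y2 : H) = (y1 : H) := by
      rw [← hyeq]
      have : (algebraMap (𝓞 H) H y2) ≠ 0 := by
        intro h4
        exact hy2' ((FaithfulSMul.algebraMap_injective (𝓞 H) H) (by rw [h4, map_zero]))
      exact div_mul_cancel₀ _ this
    have e1 : ((algebraMap (𝓞 K) (𝓞 H) π : 𝓞 H) : H) = algebraMap K H (π : K) := rfl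
    have e2 : ((algebraMap (𝓞 K) (𝓞 H) c : 𝓞 H) : H) = algebraMap K H (c : K) := rfl
    have e3 : ((algebraMap (𝓞 K) (𝓞 H) t : 𝓞 H) : H) = algebraMap K H (t : K) := rfl
    have e4 : ((u : 𝓞 H) : H) = algebraMap K H (α : K) * y ^ 2 := rfl
    have f1 : ((algebraMap (𝓞 K) (𝓞 H) π * (algebraMap (𝓞 K) (𝓞 H) c * y1) ^ 2 : 𝓞 H) : H) =
        algebraMap K H (π : K) * (algebraMap K H (c : K) * (y1 : H)) ^ 2 := by
      rw [← e1, ← e2]
      exact (map_mul (algebraMap (𝓞 H) H) _ _).trans (by rw [map_pow, map_mul])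
    have f2 : ((u * (algebraMap (𝓞 K) (𝓞 H) t * y2) ^ 2 : 𝓞 H) : H) =
        algebraMap K H (α : K) * y ^ 2 * (algebraMap K H (t : K) * (y2 : H)) ^ 2 := by
      rw [← e4, ← e3]
      exact (map_mul (algebraMap (𝓞 H) H) _ _).trans (by rw [map_pow, map_mul])
    rw [f1, f2, ← h3]
    linear_combination (-(y ^ 2 * (y2 : H) ^ 2)) * h2
  have hc0 : algebraMap (𝓞 K) (𝓞 H) c ≠ 0 := by
    intro h1
    exact hc ((FaithfulSMul.algebraMap_injective (𝓞 K) (𝓞 H)) (by rw [h1, map_zero]))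
  refine order_contra p Q ?_ π t hπ1 hπ2 ht (algebraMap (𝓞 K) (𝓞 H) c * y1) y2 u
    (mul_ne_zero hc0 hy1') hy2' huu hmain
  intro g hg
  refine hun P ⟨⟨Pint, P0, Padd, Pmul, P1, Pprime⟩, hPp⟩ g ?_
  intro x hx
  have hxi : IsIntegral ℤ x := (isIntegral_algHom_iff H.val.toRingHom.toIntAlgHom hval).1 hx
  have h1 := hg ⟨x, hxi⟩
  rw [hQmem] at h1
  exact h1

end Pool.Agent.Run7.h354.ST
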